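import Pool.Agent.Lib.lead.CXNP

set_option autoImplicit false

namespace Pool.Agent.Results.MP_0fd394_lc.Full

open Pool.Agent.Lib.CX Nat

/-- Words over `n` generators and their inverses. -/
abbrev Word (n : ℕ) := List (Fin n × Bool)

/-- The elements of the free group represented by the words of `R`. -/
def rels {n : ℕ} (R : List (Word n)) : Set (FreeGroup (Fin n)) := {g | ∃ r ∈ R, FreeGroup.mk r = g}

/-- The Cayley graph of the presented group. -/
def Cay {n : ℕ} (R : List (Word n)) : SimpleGraph (PresentedGroup (rels R)) :=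
  SimpleGraph.fromRel fun g h => ∃ i, h = g * PresentedGroup.of i

/-- Geodesic triangles in the Cayley graph are uniformly thin. -/
def Hyp {n : ℕ} (R : List (Word n)) : Prop :=
  ∃ δ : ℕ, ∀ x y z (p : (Cay R).Walk x y) (q : (Cay R).Walk y z) (r : (Cay R).Walk z x),
    p.length = (Cay R).dist x y → q.length = (Cay R).dist y z → r.length = (Cay R).dist z x →
      ∀ a ∈ p.support, ∃ b, (b ∈ q.support ∨ b ∈ r.support) ∧ (Cay R).dist a b ≤ δ

/-- Freely reduced cyclic permutations of the words of `R` and of their inverses. -/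
def star {n : ℕ} (R : List (Word n)) : Set (Word n) :=
  {t | ∃ r ∈ R, ∃ c, (c ~r r ∨ c ~r FreeGroup.invRev r) ∧ FreeGroup.reduce c = t}

/-- Dehn presentations. -/
def Dehn {n : ℕ} (R : List (Word n)) : Prop :=
  ∀ w : Word n, w ≠ [] → FreeGroup.IsReduced w →
    FreeGroup.mk w ∈ Subgroup.normalClosure (rels R) →
      ∃ u v, u <:+: w ∧ u ++ v ∈ star R ∧ v.length < u.length

/-- `S` is a correct output for the input `R`. -/
def Good {n : ℕ} (R S : List (Word n)) : Prop :=
  Subgroup.normalClosure (rels S) = Subgroup.normalClosure (rels R) ∧ Dehn S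

/-- The total length of the words. -/
def len {n : ℕ} (R : List (Word n)) : ℕ := (R.map List.length).sum

/-- Generators are written as natural numbers. -/
def code {n : ℕ} (R : List (Word n)) : List (List (ℕ × Bool)) :=
  R.map fun r => r.map fun x => (x.1.1, x.2)

def P (m : ℕ) : List (Word m) := (List.finRange m ×ˢ List.finRange m).flatMap fun e =>
  [[(e.1, true), (e.1, true)], [(e.1, true), (e.2, true), (e.1, false), (e.2, false)]]

lemma mem_P {m : ℕ} {r : Word m} : r ∈ P m ↔ ∃ i j, r = [(i, true), (i, true)] ∨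
    r = [(i, true), (j, true), (i, false), (j, false)] := by
  simp [P]

lemma grp (m : ℕ) : (∀ g h : PresentedGroup (rels (P m)), g * h = h * g) ∧
    ∀ g : PresentedGroup (rels (P m)), g * g = 1 := by
  have h1 : ∀ i j, Commute (PresentedGroup.of i : PresentedGroup (rels (P m)))
      (PresentedGroup.of j) := fun i j => by
    rw [← commutatorElement_eq_one_iff_commute]
    exact PresentedGroup.one_of_mem ⟨_, mem_P.2 ⟨i, j, .inr rfl⟩, rfl⟩
  have h2 : ∀ i, (PresentedGroup.of i : PresentedGroup (rels (P m))) * PresentedGroup.of i = 1 :=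
    fun i => PresentedGroup.one_of_mem ⟨_, mem_P.2 ⟨i, i, .inl rfl⟩, rfl⟩
  have t : ∀ g : PresentedGroup (rels (P m)),
      g ∈ Subgroup.closure (Set.range PresentedGroup.of) := fun g => by
    rw [PresentedGroup.closure_range_of]; trivial
  have h3 : ∀ g h : PresentedGroup (rels (P m)), Commute g h := fun g h =>
    Subgroup.closure_induction₂ (p := fun g h _ _ => Commute g h)
      (by rintro _ _ ⟨i, rfl⟩ ⟨j, rfl⟩; exact h1 i j) (fun _ _ => Commute.one_left _)
      (fun _ _ => Commute.one_right _) (fun _ _ _ _ _ _ => Commute.mul_left)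
      (fun _ _ _ _ _ _ => Commute.mul_right) (fun _ _ _ _ => Commute.inv_left)
      (fun _ _ _ _ => Commute.inv_right) (t g) (t h)
  refine ⟨h3, fun g => Subgroup.closure_induction (p := fun g _ => g * g = 1)
    (by rintro _ ⟨i, rfl⟩; exact h2 i) (one_mul _) (fun a b _ _ ha hb => ?_)
    (fun a _ ha => by rw [← mul_inv_rev, ha, inv_one]) (t g)⟩
  rw [(h3 a b).symm.mul_mul_mul_comm, ha, hb, one_mul]

lemma hyp (m : ℕ) : Hyp (P m) := by
  let : CommGroup (PresentedGroup (rels (P m))) :=
    { (inferInstance : Group _) with mul_comm := (grp m).1 }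
  have : Group.FG (PresentedGroup (rels (P m))) :=
    Group.fg_iff.2 ⟨_, PresentedGroup.closure_range_of _, Set.finite_range _⟩
  have : Finite (PresentedGroup (rels (P m))) := CommGroup.finite_of_fg_isMulTorsion _ fun g =>
    isOfFinOrder_iff_pow_eq_one.2 ⟨2, by norm_num, by rw [pow_two, (grp m).2]⟩
  obtain ⟨δ, h⟩ := (Set.finite_range fun e : _ × _ => (Cay (P m)).dist e.1 e.2).bddAbove
  exact ⟨δ, fun x y z p q r _ _ _ a _ => ⟨y, .inl q.start_mem_support, h ⟨(a, y), rfl⟩⟩⟩

def par {n : ℕ} (i : Fin n) : FreeGroup (Fin n) →* Multiplicative (ZMod 2) :=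
  FreeGroup.lift fun j => Multiplicative.ofAdd (if j = i then 1 else 0)

lemma par_mk {n : ℕ} (i : Fin n) (w : Word n) :
    par i (FreeGroup.mk w) = Multiplicative.ofAdd ((w.map Prod.fst).count i : ZMod 2) := by
  rw [par, FreeGroup.lift_mk]
  induction w with
  | nil => rfl
  | cons a w ih =>
    rw [List.map_cons, List.prod_cons, ih, List.map_cons, List.count_cons]
    have : (-1 : ZMod 2) = 1 := by decide
    cases a.2 <;> by_cases h : a.1 = i <;> simp [h, ← ofAdd_neg, this, mul_comm]

lemma even_star {m : ℕ} {S : List (Word m)} (h : Good (P m) S) {t : Word m} (ht : t ∈ star S)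
    (i : Fin m) : Even ((t.map Prod.fst).count i) := by
  obtain ⟨r, hr, c, hc, rfl⟩ := ht
  have h1 : Subgroup.normalClosure (rels (P m)) ≤ (par i).ker :=
    Subgroup.normalClosure_le_normal (by
      rintro _ ⟨r, hr, rfl⟩
      rw [SetLike.mem_coe, MonoidHom.mem_ker, par_mk, ofAdd_eq_one, ZMod.natCast_eq_zero_iff_even]
      obtain ⟨a, b, rfl | rfl⟩ := mem_P.1 hr <;> simp [List.count_cons] <;>
        split_ifs <;> decide)
  have h2 : par i (FreeGroup.mk r) = 1 :=
    h1 (h.1 ▸ Subgroup.subset_normalClosure ⟨r, hr, rfl⟩)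
  rw [← ZMod.natCast_eq_zero_iff_even, ← ofAdd_eq_one, ← par_mk, FreeGroup.reduce.self, par_mk]
  rcases hc with hc | hc <;> rw [(hc.perm.map _).count_eq, ← par_mk]
  · exact h2
  · rw [← FreeGroup.inv_mk, map_inv, h2, inv_one]

lemma lower {m : ℕ} (hm : 0 < m) {S : List (Word m)} (h : Good (P m) S) :
    m ! ≤ 2 * len S * (m + 1) := by
  let cp : Word m → List (Word m) := fun r => if r = [] then [] else r.cyclicPermutations
  have c1 : ∀ r, (cp r).length = r.length := fun r => by
    simp only [cp]
    split_ifs with h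
    · simp [h]
    · exact List.length_cyclicPermutations_of_ne_nil r h
  let L := S.flatMap fun r => (cp r ++ cp (FreeGroup.invRev r)).map FreeGroup.reduce
  have l1 : L.length = 2 * len S := by
    simp [L, len, List.length_flatMap, c1, ← two_mul, List.sum_map_mul_left]
  let s : Equiv.Perm (Fin m) → Word m := fun σ => List.ofFn fun i => (σ i, true)
  have s1 : ∀ σ, (s σ).length = m := fun σ => by simp [s]
  have s2 : ∀ σ, ((s σ).map Prod.fst).Nodup := fun σ => by
    simpa [s, List.map_ofFn, List.nodup_ofFn, Function.comp_def] using σ.injective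
  have key : ∀ σ, ∃ e ∈ L.toFinset ×ˢ Finset.range (m + 1), (s σ).rotate e.2 <+: e.1 := by
    intro σ
    obtain ⟨u, v, ⟨a, b, h1⟩, h2, h3⟩ := h.2 (s σ ++ s σ)
      (fun e => by have := congrArg List.length e; simp [s1] at this; omega)
      (List.Pairwise.isChain (List.pairwise_of_forall_mem_list (by simp [s])))
      (by rw [h.1, ← PresentedGroup.mk_eq_one_iff, ← FreeGroup.mul_mk, map_mul, (grp m).2])
    have nd : ¬ (u.map Prod.fst).Nodup := fun h4 => by
      have := (List.subperm_of_subset h4 (l₂ := v.map Prod.fst) fun i hi => ?_).length_le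
      · simp at this
        omega
      · have h5 := even_star h h2 i
        rw [List.map_append, List.count_append, List.count_eq_one_of_mem h4 hi] at h5
        by_contra h6
        rw [List.count_eq_zero_of_not_mem h6] at h5
        exact absurd h5 (by decide)
    have h4 : u <+: (s σ ++ s σ).drop a.length := by
      rw [← h1, List.append_assoc, List.drop_left]
      exact List.prefix_append u b
    have h5 : a.length ≤ m := by
      by_contra h5
      rw [List.drop_append, List.drop_eq_nil_of_le (by rw [s1]; omega)] at h4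
      exact nd ((s2 σ).sublist ((h4.sublist.trans (List.drop_sublist _ _)).map _))
    have h6 : (s σ).rotate a.length <+: (s σ ++ s σ).drop a.length := by
      rw [List.rotate_eq_drop_append_take (by rw [s1]; exact h5),
        List.drop_append_of_le_length (by rw [s1]; exact h5)]
      exact (List.prefix_append_right_inj _).2 (List.take_prefix _ _)
    have h7 : (s σ).rotate a.length <+: u := (List.prefix_or_prefix_of_prefix h4 h6).resolve_left
      fun h7 => nd ((((List.rotate_perm _ _).map _).nodup_iff.2 (s2 σ)).sublist (h7.sublist.map _))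
    refine ⟨(u ++ v, a.length), ?_, h7.trans (List.prefix_append u v)⟩
    obtain ⟨r, hr, c, hc, e⟩ := h2
    have c2 : ∀ r, c ~r r → c ∈ cp r := fun r h8 => by
      have : r ≠ [] := by
        rintro rfl
        rw [List.isRotated_nil_iff.1 h8] at e
        have := congrArg List.length e
        simp at this
        omega
      simpa [cp, this] using h8
    simp only [Finset.mem_product, List.mem_toFinset, Finset.mem_range, L, List.mem_flatMap,
      List.mem_map, List.mem_append]
    exact ⟨⟨r, hr, c, hc.imp (c2 _) (c2 _), e⟩, by omega⟩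
  choose f f1 f2 using key
  have := Finset.card_le_card_of_injOn (s := Finset.univ) f (fun σ _ => f1 σ) fun σ _ τ _ e => by
    have h1 := List.prefix_of_prefix_length_le (f2 σ) (e ▸ f2 τ) (by simp [s1])
    have h2 := List.rotate_injective _ (h1.eq_of_length (by simp [s1]))
    refine Equiv.ext fun i => ?_
    simpa using congrFun (List.ofFn_injective h2) i
  rw [Finset.card_univ, Fintype.card_perm, Fintype.card_fin, Finset.card_product,
    Finset.card_range] at this
  exact this.trans (Nat.mul_le_mul_right _ (l1 ▸ List.toFinset_card_le L))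

lemma grow (q : Polynomial ℕ) : ∃ m, 0 < m ∧ 2 * q.eval (100 * (m + 1) ^ 3) * (m + 1) < m ! := by
  have h : ∃ a c, ∀ m : ℕ, q.eval (100 * (m + 1) ^ 3) ≤ a * c ^ m ∧ 0 < c := by
    induction q using Polynomial.induction_on' with
    | add p q hp hq =>
      obtain ⟨a, c, h1⟩ := hp
      obtain ⟨b, d, h2⟩ := hq
      refine ⟨a + b, c + d, fun m => ⟨?_, by have := (h1 0).2; omega⟩⟩
      rw [Polynomial.eval_add, add_mul]
      exact Nat.add_le_add ((h1 m).1.trans (by gcongr; omega)) ((h2 m).1.trans (by gcongr; omega))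
    | monomial n c =>
      refine ⟨c * 100 ^ n, 8 ^ n, fun m => ⟨?_, by positivity⟩⟩
      have : m + 1 ≤ 2 ^ m := Nat.lt_two_pow_self
      calc _ = c * (100 * (m + 1) ^ 3) ^ n := Polynomial.eval_monomial
        _ ≤ c * (100 * (2 ^ m) ^ 3) ^ n := by gcongr
        _ = _ := by
          rw [show (8 : ℕ) = 2 ^ 3 by rfl, mul_pow, ← pow_mul, ← pow_mul, ← pow_mul, ← pow_mul,
            mul_assoc c, show m * (3 * n) = 3 * (n * m) by ring]
  obtain ⟨a, c, h⟩ := h
  obtain ⟨m, h1, h2⟩ := ((Nat.eventually_mul_pow_lt_factorial_sub (2 * a) (c * 2) 0).and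
    (Filter.eventually_gt_atTop 0)).exists
  have : m + 1 ≤ 2 ^ m := Nat.lt_two_pow_self
  refine ⟨m, h2, lt_of_le_of_lt ?_ h1⟩
  calc _ ≤ 2 * (a * c ^ m) * 2 ^ m := by gcongr; exact (h m).1
    _ = _ := by ring

lemma len_le {n : ℕ} (R : List (Word n)) : len R ≤ size (code R) := by
  induction R with
  | nil => simp [len]
  | cons r R ih =>
    have : ∀ l : List (ℕ × Bool), l.length ≤ size l := fun l => by
      induction l with
      | nil => simp
      | cons a l ih => simp; omega
    have := this (r.map fun x => (x.1.1, x.2))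
    simp only [len, code, List.map_cons, List.sum_cons, size_cons, List.length_map] at *
    omega

lemma size_P (m : ℕ) : size (List.replicate m (), code (P m)) ≤ 100 * (m + 1) ^ 3 := by
  have h1 := size_list_le (l := List.replicate m ()) (B := 2) (by simp)
  have h2 := size_list_le (l := code (P m)) (B := 4 * (3 * m + 6) + 2) fun w hw => by
    obtain ⟨r, hr, rfl⟩ := List.mem_map.1 hw
    obtain ⟨i, j, h⟩ := mem_P.1 hr
    have := size_nat_le i.1
    have := size_nat_le j.1
    rcases h with rfl | rfl <;> simp [size_pair] <;> omega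
  have h3 : (code (P m)).length = 2 * m * m := by
    simp [code, P, List.length_flatMap, List.length_product]
    ring
  rw [h3] at h2
  rw [List.length_replicate] at h1
  rw [size_pair]
  nlinarith [Nat.zero_le (m ^ 3), Nat.zero_le (m ^ 2)]

theorem result :
    (∀ q : Polynomial ℕ, ∃ (n : ℕ) (R : List (Word n)), Hyp R ∧
      ∀ S, Good R S → q.eval (n + len R) < len S) ∧
    ¬ ∃ f : List Unit × List (List (ℕ × Bool)) → List (List (ℕ × Bool)), PT f ∧
      ∀ (n : ℕ) (R : List (Word n)), Hyp R →
        ∃ S, f (List.replicate n (), code R) = code S ∧ Good R S := by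
  have h : ∀ q : Polynomial ℕ, ∃ m, ∀ S, Good (P m) S → q.eval (100 * (m + 1) ^ 3) < len S :=
    fun q => by
      obtain ⟨m, h1, h2⟩ := grow q
      exact ⟨m, fun S h3 => by
        have := Nat.lt_of_mul_lt_mul_right (h2.trans_le (lower h1 h3))
        omega⟩
  refine ⟨fun q => ?_, fun ⟨f, h1, h2⟩ => ?_⟩
  · obtain ⟨m, h1⟩ := h q
    refine ⟨m, P m, hyp m, fun S h2 => (eval_mono q ?_).trans_lt (h1 S h2)⟩
    have h3 := size_P m
    have h4 := len_le (P m)
    have h5 : ∀ k, k ≤ size (List.replicate k ()) := fun k => by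
      induction k with
      | zero => simp
      | succ k ih => simp [List.replicate_succ]; omega
    have := h5 m
    rw [size_pair] at h3
    omega
  · obtain ⟨q, hq⟩ := PB.size h1
    obtain ⟨m, h3⟩ := h q
    obtain ⟨S, h4, h5⟩ := h2 m (P m) (hyp m)
    have h6 := hq (List.replicate m (), code (P m))
    simp only [h4] at h6
    exact absurd ((len_le S).trans (h6.trans (eval_mono q (size_P m)))) (not_le.2 (h3 S h5))

end Pool.Agent.Results.MP_0fd394_lc.Full
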